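import Mathlib
import Pool.Agent.W811.Nd.Stm

/-!
(DIG) digits of the two frequencies (for helper811's ND project).
-/

set_option autoImplicit false

open Pool.Agent.W811.Stu Pool.Agent.W811.Nd

namespace Pool.Agent.W293.Nd

theorem s13_gt : (3 : ℝ) < Real.sqrt 13 := by
  rw [show (3 : ℝ) = Real.sqrt (3 ^ 2) from (Real.sqrt_sq (by norm_num)).symm]
  exact Real.sqrt_lt_sqrt (by norm_num) (by norm_num)

theorem s13_lt : Real.sqrt 13 < 4 := by
  rw [show (4 : ℝ) = Real.sqrt (4 ^ 2) from (Real.sqrt_sq (by norm_num)).symm]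
  exact Real.sqrt_lt_sqrt (by norm_num) (by norm_num)

theorem s13_sq : Real.sqrt 13 * Real.sqrt 13 = 13 := Real.mul_self_sqrt (by norm_num)

theorem fA_pos : 0 < fA := by unfold fA; linarith [s13_gt]

theorem fA_lt : fA < 1 := by unfold fA; linarith [s13_lt]

theorem fA_inv : fA⁻¹ = 3 + fA := by
  have h : fA * (3 + fA) = 1 := by
    unfold fA; nlinarith [s13_sq]
  exact inv_eq_of_mul_eq_one_right h

theorem fB_pos : 0 < fB := inv_pos.2 (by linarith [fA_pos])

theorem fB_lt : fB < 1 := inv_lt_one_of_one_lt₀ (by linarith [fA_pos])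

theorem fB_inv : fB⁻¹ = 1 + fA := by unfold fB; rw [inv_inv]

theorem fract_fA : Int.fract fA = fA := Int.fract_eq_self.2 ⟨fA_pos.le, fA_lt⟩

theorem fract_fB : Int.fract fB = fB := Int.fract_eq_self.2 ⟨fB_pos.le, fB_lt⟩

theorem fract_fA_inv : Int.fract fA⁻¹ = fA := by
  rw [fA_inv, show (3 : ℝ) + fA = ((3 : ℤ) : ℝ) + fA by norm_num, Int.fract_intCast_add, fract_fA]

theorem fract_fB_inv : Int.fract fB⁻¹ = fA := by
  rw [fB_inv, show (1 : ℝ) + fA = ((1 : ℤ) : ℝ) + fA by norm_num, Int.fract_intCast_add, fract_fA]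

theorem floor_fA_inv : ⌊fA⁻¹⌋ = 3 := by
  rw [fA_inv, Int.floor_eq_iff]
  have := fA_pos
  have := fA_lt
  constructor
  · push_cast; linarith
  · push_cast; linarith

theorem floor_fB_inv : ⌊fB⁻¹⌋ = 1 := by
  rw [fB_inv, Int.floor_eq_iff]
  have := fA_pos
  have := fA_lt
  constructor
  · push_cast; linarith
  · push_cast; linarith

theorem irr_fA : Irrational fA := by
  have h : Irrational (Real.sqrt 13) := by
    have := Nat.Prime.irrational_sqrt (p := 13) (by norm_num)
    simpa using this
  have h2 := (h.sub_natCast 3).div_natCast (m := 2) (by norm_num)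
  unfold fA
  simpa using h2

theorem irr_fB : Irrational fB := by
  unfold fB
  rw [irrational_inv_iff]
  have h := irr_fA.natCast_add 1
  simpa using h

theorem gauss_fA : gauss fA = fA := fract_fA_inv

theorem gauss_fB : gauss fB = fA := fract_fB_inv

theorem dig_fA : dig fA = dA := by
  funext k
  unfold dig dA
  rw [Function.iterate_fixed gauss_fA k, ← Int.floor_toNat, floor_fA_inv]
  rfl

theorem dig_fB : dig fB = dB := by
  funext k
  unfold dig dB
  rcases k with _ | k
  · rw [Function.iterate_zero, id, ← Int.floor_toNat, floor_fB_inv]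
    simp
  · rw [Function.iterate_succ_apply, gauss_fB, Function.iterate_fixed gauss_fA k,
      ← Int.floor_toNat, floor_fA_inv]
    simp

theorem irr_fract_ne {v : ℝ} (hv : Int.fract v = fA) : Int.fract v ≠ 0 := by
  rw [hv]; exact fA_pos.ne'

theorem get_s (i : ℕ) : ∀ v : ℝ, Int.fract v = fA →
    (GenContFract.of v).s.get? i = some ⟨1, 3⟩ := by
  induction i with
  | zero =>
    intro v hv
    have h := GenContFract.of_s_head (irr_fract_ne hv)
    rw [hv, floor_fA_inv] at h
    simpa [Stream'.Seq.head] using h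
  | succ i ih =>
    intro v hv
    rw [GenContFract.of_s_succ, hv]
    exact ih _ fract_fA_inv

theorem dg : TDg := by
  refine ⟨irr_fA, irr_fB, fA_pos, fA_lt, fB_pos, fB_lt, fract_fB_inv, dig_fA, dig_fB, fun i => ?_⟩
  unfold GenContFract.partDens
  rw [Stream'.Seq.map_get?, Stream'.Seq.map_get?, add_zero, GenContFract.of_s_succ, fract_fB,
    get_s i _ fract_fB_inv, get_s i _ fract_fA]

end Pool.Agent.W293.Nd

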